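import Pool.Agent.H56.JW.Targets

/-!
# Row LEAF of the board jwq (helper56, MP_959f6e_co)

In a graph of maximum degree 2 every vertex of degree 1 reaches exactly one other.
-/

set_option autoImplicit false

open Finset

namespace Pool.Agent.H13.JWQ

open Pool.Agent.H56.JW

open Classical in
theorem deg_comp {V : Type} [Fintype V] (H : SimpleGraph V) (C : H.ConnectedComponent)
    (v : C) : C.toSimpleGraph.degree v = dg H v.1 := by
  have h1 : C.toSimpleGraph.degree v = (C.toSimpleGraph.neighborSet v).ncard := by
    rw [← SimpleGraph.card_neighborSet_eq_degree, Set.ncard_eq_toFinset_card',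
      Set.toFinset_card]
  have h2 : (Subtype.val '' (C.toSimpleGraph.neighborSet v) : Set V) = H.neighborSet v.1 := by
    ext w
    constructor
    · rintro ⟨⟨w', hw'⟩, hadj, rfl⟩
      exact (C.toSimpleGraph_adj v.2 hw').1 hadj
    · intro hw
      have hwC : w ∈ C := by
        have h3 : H.connectedComponentMk v.1 = C := v.2
        show H.connectedComponentMk w = C
        rw [← h3]
        exact SimpleGraph.ConnectedComponent.sound
          (SimpleGraph.Adj.reachable (SimpleGraph.Adj.symm hw))
      exact ⟨⟨w, hwC⟩, (C.toSimpleGraph_adj v.2 hwC).2 hw, rfl⟩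
  rw [h1, dg, ← h2, Set.ncard_image_of_injective _ Subtype.val_injective]

open Classical in
theorem pf_LEAF : T_LEAF := by
  intro V _ _ H hle z hz
  set C := H.connectedComponentMk z with hC
  have hzC : z ∈ C := rfl
  set z0 : C := ⟨z, hzC⟩ with hz0
  have hd : ∀ v : C, C.toSimpleGraph.degree v ≤ 2 := by
    intro v
    rw [deg_comp]
    exact hle v.1
  have hdz : C.toSimpleGraph.degree z0 = 1 := by
    rw [deg_comp]
    exact hz
  obtain ⟨w0, hw0, hodd⟩ := C.toSimpleGraph.exists_ne_odd_degree_of_exists_odd_degree z0
    (by rw [hdz]; exact odd_one)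
  have hw1 : C.toSimpleGraph.degree w0 = 1 := by
    have := hd w0
    obtain ⟨k, hk⟩ := hodd
    omega
  refine ⟨w0.1, ?_, ?_, ?_, ?_⟩
  · intro hc
    exact hw0 (Subtype.ext hc)
  · rw [← deg_comp]
    exact hw1
  · have h3 : H.connectedComponentMk w0.1 = H.connectedComponentMk z := w0.2
    exact (SimpleGraph.ConnectedComponent.exact h3).symm
  · intro w hwz hdw hreach
    by_contra hne
    have hwC : w ∈ C := by
      show H.connectedComponentMk w = H.connectedComponentMk z
      exact SimpleGraph.ConnectedComponent.sound hreach.symm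
    set w1 : C := ⟨w, hwC⟩ with hw1def
    have hdw1 : C.toSimpleGraph.degree w1 = 1 := by
      rw [deg_comp]
      exact hdw
    have h1z : w1 ≠ z0 := fun h => hwz (congrArg Subtype.val h)
    have h1w : w1 ≠ w0 := fun h => hne (congrArg Subtype.val h)
    have hcard : ({z0, w0, w1} : Finset C).card = 3 := by
      rw [Finset.card_eq_three]
      exact ⟨z0, w0, w1, hw0.symm, h1z.symm, h1w.symm, rfl⟩
    have hsum : ∑ v : C, C.toSimpleGraph.degree v + 3 ≤ 2 * Fintype.card C := by
      have e1 : ∑ v : C, (C.toSimpleGraph.degree v + if v ∈ ({z0, w0, w1} : Finset C) then 1 else 0)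
          ≤ ∑ _v : C, 2 := by
        apply Finset.sum_le_sum
        intro v _
        split_ifs with h
        · rw [Finset.mem_insert, Finset.mem_insert, Finset.mem_singleton] at h
          rcases h with rfl | rfl | rfl
          · omega
          · omega
          · omega
        · exact hd v
      rw [Finset.sum_add_distrib, Finset.sum_ite_mem, Finset.univ_inter, Finset.sum_const, hcard,
        Finset.sum_const, Finset.card_univ] at e1
      simpa [mul_comm] using e1
    have hconn : C.toSimpleGraph.Connected := C.connected_toSimpleGraph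
    have hedge := hconn.card_vert_le_card_edgeSet_add_one
    have h4 := C.toSimpleGraph.sum_degrees_eq_twice_card_edges
    rw [Nat.card_eq_fintype_card, Nat.card_eq_fintype_card, ← SimpleGraph.edgeFinset_card] at hedge
    omega

end Pool.Agent.H13.JWQ
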